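import Pool.Agent.N70.EQ.Stm

/-!
The determinant of the matrix of a multiplication is the norm.
-/

set_option autoImplicit false

namespace Pool.Agent.N603.EQ

open Polynomial Pool.Agent.N70.AW

theorem t_kc : Pool.Agent.N70.EQ.St_kc := by
  classical
  intro K Z _ _ _ P m g hg e es _ _ h1 h0 f F hF
  set ρ : K[X] →+* Z := (algebraMap (RatFunc K) Z).comp (algebraMap K[X] (RatFunc K)) with hρ
  have hpz : ∀ q : K[X], pz Z q = ρ q := fun q => rfl
  have hgρ : ∀ (γ : Z ≃ₐ[RatFunc K] Z) (q : K[X]), γ (ρ q) = ρ q := fun γ q => γ.commutes _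
  set U : Matrix (Fin m) (Fin m) Z := Matrix.of fun t l => g t (e l) with hU
  set V : Matrix (Fin m) (Fin m) Z := Matrix.of fun l t => g t (es l) with hV
  have hUV : U * V = 1 := by
    funext t t'
    rw [Matrix.mul_apply]
    change ∑ l, g t (e l) * g t' (es l) = _
    by_cases h : t = t'
    · subst h
      rw [Matrix.one_apply_eq]
      have h2 := congrArg (g t) h1
      rw [map_one, map_sum] at h2
      rw [← h2]
      exact Finset.sum_congr rfl fun l _ => (map_mul _ _ _).symm
    · rw [Matrix.one_apply_ne h]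
      have h3 : (g t)⁻¹ * g t' ∉ P := fun h2 => h (hg (QuotientGroup.eq.2 h2))
      have h2 := congrArg (g t) (h0 _ h3)
      rw [map_zero, map_sum] at h2
      rw [← h2]
      refine Finset.sum_congr rfl fun l _ => ?_
      rw [map_mul]
      congr 1
      change g t' (es l) = (g t * ((g t)⁻¹ * g t')) (es l)
      rw [mul_inv_cancel_left]
  have hM : U * ρ.mapMatrix F = Matrix.diagonal (fun t => g t f) * U := by
    funext t l'
    rw [Matrix.mul_apply, Matrix.diagonal_mul]
    change ∑ l, g t (e l) * ρ (F l l') = g t f * g t (e l')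
    rw [← map_mul, hF, map_sum]
    refine Finset.sum_congr rfl fun l _ => ?_
    rw [map_mul, hpz, hgρ, mul_comm]
  have h3 := congrArg Matrix.det hM
  rw [Matrix.det_mul, Matrix.det_mul, Matrix.det_diagonal, mul_comm] at h3
  have h4 : U.det ≠ 0 := by
    intro h5
    have h6 := congrArg Matrix.det hUV
    rw [Matrix.det_mul, h5, zero_mul, Matrix.det_one] at h6
    exact zero_ne_one h6
  have h5 := mul_right_cancel₀ h4 h3
  rw [hpz, RingHom.map_det, h5]

end Pool.Agent.N603.EQ
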